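import Mathlib
import Pool.Agent.Helper26.FU.Ext

/-!
# OB, block T3: embeddings of `ℂ` in the algebraic closure of `ℚ_p` with given residues of algebraically independent numbers
-/

set_option autoImplicit false

namespace Pool.Agent.Helper26.OB

open Cardinal Set

noncomputable section

/-- algebraic independence is preserved by affine changes of the variables -/
theorem algInd_affine86 {M E : Type} [Field M] [Field E] [Algebra M E] {r : ℕ} {w : Fin r → E}
    (hw : AlgebraicIndependent M w) (a : Fin r → M) (b : Fin r → M) (hb : ∀ j, b j ≠ 0) :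
    AlgebraicIndependent M fun j => algebraMap M E (a j) + algebraMap M E (b j) * w j := by
  let A : MvPolynomial (Fin r) M →ₐ[M] MvPolynomial (Fin r) M :=
    MvPolynomial.aeval fun j => MvPolynomial.C (a j) + MvPolynomial.C (b j) * MvPolynomial.X j
  let B : MvPolynomial (Fin r) M →ₐ[M] MvPolynomial (Fin r) M :=
    MvPolynomial.aeval fun j => MvPolynomial.C (b j)⁻¹ * (MvPolynomial.X j - MvPolynomial.C (a j))
  have hBA : B.comp A = AlgHom.id M _ := by
    refine MvPolynomial.algHom_ext fun j => ?_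
    have h1 : A (MvPolynomial.X j) = MvPolynomial.C (a j) + MvPolynomial.C (b j) * MvPolynomial.X j := by
      simp [A]
    have h2 : B (MvPolynomial.X j) = MvPolynomial.C (b j)⁻¹ * (MvPolynomial.X j - MvPolynomial.C (a j)) := by
      simp [B]
    have h3 : ∀ c : M, B (MvPolynomial.C c) = MvPolynomial.C c := fun c => by
      simp [B, MvPolynomial.algebraMap_eq]
    rw [AlgHom.comp_apply, h1, map_add, map_mul, h2, h3, h3, ← mul_assoc, ← MvPolynomial.C_mul,
      mul_inv_cancel₀ (hb j), MvPolynomial.C_1, one_mul, add_sub_cancel]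
    rfl
  have hA : Function.Injective A := fun x y hxy => by
    have := congrArg B hxy
    rw [← AlgHom.comp_apply, ← AlgHom.comp_apply, hBA] at this
    exact this
  have hcomp : (MvPolynomial.aeval fun j => algebraMap M E (a j) + algebraMap M E (b j) * w j :
      MvPolynomial (Fin r) M →ₐ[M] E) = (MvPolynomial.aeval w).comp A := by
    refine MvPolynomial.algHom_ext fun j => ?_
    simp [A]
  rw [AlgebraicIndependent, hcomp]
  exact (show Function.Injective (MvPolynomial.aeval w : MvPolynomial (Fin r) M →ₐ[M] E) from hw).comp hA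

/-- algebraically independent elements near given ones -/
theorem exists_near86 {p : ℕ} [Fact p.Prime] {K : Type} [Field K] [Algebra K (PadicAlgCl p)] [Countable K]
    {r : ℕ} (θ : Fin r → PadicAlgCl p) :
    ∃ u : Fin r → PadicAlgCl p, AlgebraicIndependent K u ∧ ∀ j, ‖u j - θ j‖ < 1 := by
  have hcount : Countable (IntermediateField.adjoin K (range θ)) := by
    rw [← mk_le_aleph0_iff]
    refine (IntermediateField.cardinalMk_adjoin_le K (range θ)).trans ?_
    refine max_le (max_le mk_le_aleph0 mk_le_aleph0) le_rfl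
  have hE : ℵ₀ < #(PadicAlgCl p) := by
    rw [Pool.Agent.Helper26.FD.mk_padicAlgCl]
    exact aleph0_lt_continuum
  obtain ⟨w, hw⟩ := Pool.Agent.Helper26.LT.exists_algebraicIndependent
    (K := IntermediateField.adjoin K (range θ)) (E := PadicAlgCl p) hE r
  have hp0 : ((p : ℕ) : PadicAlgCl p) ≠ 0 := by
    exact_mod_cast (Fact.out : p.Prime).ne_zero
  have hpn : ‖((p : ℕ) : PadicAlgCl p)‖ < 1 := by
    have h1 : ((p : ℕ) : PadicAlgCl p) = algebraMap ℚ_[p] (PadicAlgCl p) (p : ℚ_[p]) := by simp
    rw [h1, norm_algebraMap', Padic.norm_p]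
    exact inv_lt_one_of_one_lt₀ (by exact_mod_cast (Fact.out : p.Prime).one_lt)
  have hex : ∀ j, ∃ n : ℕ, ‖((p : ℕ) : PadicAlgCl p) ^ n * w j‖ < 1 := fun j => by
    have h1 : Filter.Tendsto (fun n : ℕ => ‖((p : ℕ) : PadicAlgCl p)‖ ^ n * ‖w j‖) Filter.atTop (nhds (0 * ‖w j‖)) :=
      (tendsto_pow_atTop_nhds_zero_of_lt_one (norm_nonneg _) hpn).mul_const _
    rw [zero_mul] at h1
    obtain ⟨n, hn⟩ := (h1.eventually (gt_mem_nhds one_pos)).exists
    exact ⟨n, by rw [norm_mul, norm_pow]; exact hn⟩
  choose n hn using hex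
  have hind := algInd_affine86 hw (fun j => ⟨θ j, IntermediateField.subset_adjoin K _ ⟨j, rfl⟩⟩)
    (fun j => ((p : ℕ) : IntermediateField.adjoin K (range θ)) ^ n j) (fun j => pow_ne_zero _ (by
      intro h0
      apply hp0
      have := congrArg (algebraMap (IntermediateField.adjoin K (range θ)) (PadicAlgCl p)) h0
      simpa using this))
  refine ⟨_, hind.restrictScalars (algebraMap K (IntermediateField.adjoin K (range θ))).injective, fun j => ?_⟩
  have h1 : algebraMap (IntermediateField.adjoin K (range θ)) (PadicAlgCl p)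
      ⟨θ j, IntermediateField.subset_adjoin K _ ⟨j, rfl⟩⟩ = θ j := rfl
  rw [h1, map_pow, map_natCast, add_sub_cancel_left]
  exact hn j

/-- **T3**: embeddings with given residues of algebraically independent numbers -/
theorem emb (p : ℕ) [Fact p.Prime] (L₀ : Subfield ℂ) (hL₀ : (L₀ : Set ℂ).Countable) (τ₀ : ℂ →+* PadicAlgCl p)
    {r : ℕ} (t : Fin r → ℂ) (ht : AlgebraicIndependent L₀ t) (θ : Fin r → PadicAlgCl p) :
    ∃ τ : ℂ →+* PadicAlgCl p, (∀ z ∈ L₀, τ z = τ₀ z) ∧ ∀ j, ‖τ (t j) - θ j‖ < 1 := by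
  have : Countable L₀ := hL₀
  let φ : L₀ →+* PadicAlgCl p := τ₀.comp L₀.subtype
  let : Algebra L₀ (PadicAlgCl p) := φ.toAlgebra
  obtain ⟨u, hu, hu1⟩ := exists_near86 (K := L₀) θ
  let f : IntermediateField.adjoin L₀ (range t) →ₐ[L₀] PadicAlgCl p :=
    (IntermediateField.val _).comp (hu.aevalEquivField.toAlgHom.comp
      ht.aevalEquivField.symm.toAlgHom)
  have hcount : Countable (IntermediateField.adjoin L₀ (range t)) := by
    rw [← mk_le_aleph0_iff]
    refine (IntermediateField.cardinalMk_adjoin_le L₀ (range t)).trans ?_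
    refine max_le (max_le mk_le_aleph0 mk_le_aleph0) le_rfl
  obtain ⟨τ, hτ⟩ := Pool.Agent.Helper26.FU.exists_lift_complex (p := p)
    (K := IntermediateField.adjoin L₀ (range t)) f.toRingHom
  refine ⟨τ, fun z hz => ?_, fun j => ?_⟩
  · have h1 := hτ (algebraMap L₀ _ ⟨z, hz⟩)
    have h2 : f (algebraMap L₀ _ ⟨z, hz⟩) = τ₀ z := f.commutes ⟨z, hz⟩
    exact h1.trans h2
  · have hti : t j ∈ IntermediateField.adjoin L₀ (range t) :=
      IntermediateField.subset_adjoin _ _ ⟨j, rfl⟩
    have h1 := hτ ⟨t j, hti⟩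
    have h2 : algebraMap (IntermediateField.adjoin L₀ (range t)) ℂ ⟨t j, hti⟩ = t j := rfl
    have h3 : ht.aevalEquivField (algebraMap (MvPolynomial (Fin r) L₀)
        (FractionRing (MvPolynomial (Fin r) L₀)) (MvPolynomial.X j)) = ⟨t j, hti⟩ := by
      apply Subtype.ext
      rw [AlgebraicIndependent.aevalEquivField_algebraMap_apply_coe, MvPolynomial.aeval_X]
    have h4 : ht.aevalEquivField.symm ⟨t j, hti⟩ = algebraMap (MvPolynomial (Fin r) L₀)
        (FractionRing (MvPolynomial (Fin r) L₀)) (MvPolynomial.X j) := by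
      rw [← h3, AlgEquiv.symm_apply_apply]
    have h5 : f ⟨t j, hti⟩ = u j := by
      change ((hu.aevalEquivField (ht.aevalEquivField.symm ⟨t j, hti⟩) :
        IntermediateField.adjoin L₀ (range u)) : PadicAlgCl p) = u j
      rw [h4, AlgebraicIndependent.aevalEquivField_algebraMap_apply_coe, MvPolynomial.aeval_X]
    rw [h2] at h1
    rw [h1]
    have h6 : f.toRingHom ⟨t j, hti⟩ = u j := h5
    rw [h6]
    exact hu1 j

end

end Pool.Agent.Helper26.OB
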